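import Pool.Agent.helper93.TV.Spec3

/-! Row FRI (the multiplicities form a fusion ring). -/

namespace Pool.Agent.helper93.TV

open BigOperators Finset

theorem FRI_total (C : SkelCat) : Pool.Agent.helper93.FR.total C.mult = C.n := by
  unfold Pool.Agent.helper93.FR.total SkelCat.mult
  simp only [Finset.card_filter]
  have h1 : ∀ i j : Fin C.r, ∑ k, ∑ v, (if C.s1 v = i ∧ C.s2 v = j ∧ C.t v = k then 1 else 0) =
      ∑ v, (if C.s1 v = i ∧ C.s2 v = j then 1 else 0) := by
    intro i j
    rw [Finset.sum_comm]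
    refine Finset.sum_congr rfl fun v _ => ?_
    rw [Finset.sum_eq_single (C.t v)]
    · by_cases h : C.s1 v = i ∧ C.s2 v = j
      · rw [if_pos ⟨h.1, h.2, rfl⟩, if_pos h]
      · rw [if_neg (fun h' => h ⟨h'.1, h'.2.1⟩), if_neg h]
    · intro k _ hk
      rw [if_neg (fun h' => hk h'.2.2.symm)]
    · intro h
      exact absurd (Finset.mem_univ _) h
  have h2 : ∀ i : Fin C.r, ∑ j, ∑ v, (if C.s1 v = i ∧ C.s2 v = j then 1 else 0) =
      ∑ v, (if C.s1 v = i then 1 else 0) := by
    intro i
    rw [Finset.sum_comm]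
    refine Finset.sum_congr rfl fun v _ => ?_
    rw [Finset.sum_eq_single (C.s2 v)]
    · by_cases h : C.s1 v = i
      · rw [if_pos ⟨h, rfl⟩, if_pos h]
      · rw [if_neg (fun h' => h h'.1), if_neg h]
    · intro k _ hk
      rw [if_neg (fun h' => hk h'.2.symm)]
    · intro h
      exact absurd (Finset.mem_univ _) h
  simp only [h1, h2]
  rw [Finset.sum_comm]
  simp

theorem FRI : FRI_stmt := by
  intro hFDO hRG C o d hC
  obtain ⟨D, h1, h2, h3, ho, hd, hU⟩ := hFDO C o d hC
  have hR : D.Rg := hRG (Fin C.r) (Fin C.n) D C.F hU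
  have hm : ∀ a b c, D.mlt a b c = C.mult a b c := by
    intro a b c
    simp only [FD.mlt, SkelCat.mult, h1, h2, h3]
  refine ⟨⟨hC.dual_dual, hC.unit_left, hC.unit_right, ?_, hC.dual, ?_⟩, FRI_total C, ?_⟩
  · intro i j k l
    simpa only [hm] using hR.assoc i j k l
  · intro i j k
    have e1 := hR.frl i j k
    have e2 := hR.frr (D.du i) k j
    have e3 := hR.frl j (D.du k) (D.du i)
    rw [hd] at e1 e2 e3
    simp only [hm] at e1 e2 e3
    rw [e1, e2, e3]
  · have hinj : Function.Injective D.lam := by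
      intro a b hab
      have := congrArg D.s2 hab
      rwa [D.s2_lam, D.s2_lam] at this
    simpa using Fintype.card_le_of_injective D.lam hinj

end Pool.Agent.helper93.TV
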