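import Pool.Agent.helper93.TV.Spec2

/-! Row SA (three-fold combs, first expansion). -/

namespace Pool.Agent.helper93.TV

open BigOperators Finset Matrix

variable {I V : Type} [Fintype I] [DecidableEq I] [Fintype V] [DecidableEq V]

theorem SA_sum2 {M : Type*} [AddCommMonoid M] (m : ℕ) (f : List V → M) :
    ∑ w ∈ lists V (2 * m), f w = ∑ p ∈ lists V m, ∑ q ∈ lists V m, f (p ++ q) := by
  rw [two_mul, sum_lists_add]

theorem SA_take {m : ℕ} {p : List V} (q : List V) (h : p ∈ lists V m) :
    (p ++ q).take m = p := by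
  rw [mem_lists] at h
  subst h
  simp

theorem SA_drop {m : ℕ} {p : List V} (q : List V) (h : p ∈ lists V m) :
    (p ++ q).drop m = q := by
  rw [mem_lists] at h
  subst h
  simp

/-- The operator 1 ⊗ Phi (T) at the unit object. -/
theorem SA_op (D : FD I V) (X : Finset I) (c : V → V → V → V → ℂ) (m : ℕ)
    (hcalc : D.Calc X c m) (T : List V → List V → ℂ) (hT : D.Op X m (2 * m) T) :
    D.Op X (2 * m) (3 * m) (D.ltens X m (D.Phi X c m m (2 * m) T) D.o) := by
  intro w w' h
  have hf := (hcalc.fam m (by omega) (2 * m) (by omega) T hT).1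
  simp only [FD.ltens] at h
  split_ifs at h with hc
  · obtain ⟨h1, h2, h3⟩ := hc
    obtain ⟨s1, s2, s3, s4, s5⟩ := hf.supp _ _ _ h
    have h2' : w'.take m ∈ lists V m := h1 ▸ h2
    rw [mem_lists] at s1 s2 h2 h2'
    have e1 : w = w.take m ++ w.drop m := (List.take_append_drop m w).symm
    have e2 : w' = w'.take m ++ w'.drop m := (List.take_append_drop m w').symm
    refine ⟨?_, ?_, ?_, ?_, ?_⟩
    · rw [mem_lists, e1, List.length_append, s1, h2]; omega
    · rw [mem_lists, e2, List.length_append, s2, h2']; omega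
    · rw [e1, ok_append]; exact ⟨h3, s3⟩
    · rw [e2, ok_append, ← h1]; exact ⟨h3, s4⟩
    · rw [e1, e2, en_append, en_append, ← h1]; exact s5
  · exact absurd rfl h

/-- The composition of T δ with 1 ⊗ Phi (T β) at the unit object. -/
theorem SA_comp (D : FD I V) (X : Finset I) (c : V → V → V → V → ℂ) (m : ℕ)
    (bp : I → List V) (J : V → List V → ℂ) (hctx : D.Ctx X c m bp) (β δ : V) :
    (fun p q => ∑ w ∈ lists V (2 * m), D.Tb m bp J δ p w *
      D.ltens X m (D.Phi X c m m (2 * m) (D.Tb m bp J β)) D.o w q) =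
      D.Tbb X c m bp J β δ := by
  obtain ⟨b1, b2, b3⟩ := hctx.base (D.s1 δ)
  funext p q
  rw [SA_sum2]
  have step : ∀ p' ∈ lists V m, ∑ q' ∈ lists V m, D.Tb m bp J δ p (p' ++ q') *
      D.ltens X m (D.Phi X c m m (2 * m) (D.Tb m bp J β)) D.o (p' ++ q') q =
      if p' = bp (D.s1 δ) then D.Tbb X c m bp J β δ p q else 0 := by
    intro p' hp'
    split_ifs with h
    · subst h
      simp only [FD.Tb, FD.ltens, FD.Tbb, SA_take _ hp', SA_drop _ hp', and_true, b1, b2, b3,
        true_and]
      by_cases h1 : p = bp (D.t δ)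
      · by_cases h2 : q.take m = bp (D.s1 δ)
        · simp [h1, h2, FD.Rv, FD.Tb]
        · have h2' : ¬ bp (D.s1 δ) = q.take m := fun e => h2 e.symm
          simp [h2, h2']
      · simp [h1]
    · refine Finset.sum_eq_zero fun q' _ => ?_
      simp [FD.Tb, SA_take _ hp', h]
  rw [Finset.sum_congr rfl step, Finset.sum_ite_eq' (lists V m) (bp (D.s1 δ))]
  simp [b1]

theorem SA : SA_stmt := by
  intro hSR hSL hSC hSE I V _ _ _ _ D X c m bp J hctx hcalc hJ α β ν w hα hβ hw
  have hop := (hSR I V D X c m bp J hctx hcalc hJ).1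
  have hexp := hSE I V D X c m bp J hctx hcalc hJ α ν
  set P := D.Phi X c m m (2 * m) (D.Tb m bp J β) with hP
  -- the left side
  have hwt : w.take m ∈ lists V m := by
    rw [mem_lists] at hw ⊢
    rw [List.length_take, hw]; omega
  have hL : J α (w.take m) * D.Rv X c m bp J β ν (w.drop m) =
      ∑ w₁ ∈ lists V (2 * m), Lv m J α ν w₁ * D.ltens X m P (D.s1 α) w₁ w := by
    rw [SA_sum2]
    have step : ∀ p ∈ lists V m, ∑ q ∈ lists V m, Lv m J α ν (p ++ q) *
        D.ltens X m P (D.s1 α) (p ++ q) w =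
        if p = w.take m then J α (w.take m) * D.Rv X c m bp J β ν (w.drop m) else 0 := by
      intro p hp
      split_ifs with h
      · by_cases hz : J α p = 0
        · rw [← h, hz, zero_mul]
          refine Finset.sum_eq_zero fun q _ => ?_
          simp [Lv, SA_take _ hp, hz]
        · obtain ⟨_, j2, j3⟩ := hJ.supp α p hz
          rw [← h]
          simp only [Lv, FD.ltens, SA_take _ hp, SA_drop _ hp, h.symm, hp, j2, j3, and_self,
            if_true, FD.Rv, Finset.mul_sum, ← hP, hα]
          exact Finset.sum_congr rfl fun q _ => by ring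
      · refine Finset.sum_eq_zero fun q _ => ?_
        simp [FD.ltens, SA_take _ hp, h]
    rw [Finset.sum_congr rfl step, Finset.sum_ite_eq' (lists V m) (w.take m)]
    simp [hwt]
  -- the inner sums
  have hR : ∀ δ ζ, D.s1 ζ = D.s1 α →
      ∑ w₁ ∈ lists V (2 * m), D.Rv X c m bp J δ ζ w₁ * D.ltens X m P (D.s1 α) w₁ w =
        D.RR X c m bp J β δ ζ w := by
    intro δ ζ hζ
    have hS := SA_op D X c m hcalc _ (hop β)
    have hlt := hcalc.lt m (2 * m) m (by omega) (by omega) _ (hop β)
    rw [show m + m = 2 * m by omega, show m + 2 * m = 3 * m by omega] at hlt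
    have hmul := hcalc.mul m (by omega) (2 * m) (by omega) (3 * m) (by omega) _ _ (hop δ) hS
    rw [SA_comp D X c m bp J hctx β δ, hlt] at hmul
    simp only [FD.RR, FD.Rv, hmul, hζ, Finset.sum_mul, Finset.mul_sum]
    rw [Finset.sum_comm]
    exact Finset.sum_congr rfl fun p _ => Finset.sum_congr rfl fun w₁ _ => by ring
  rw [hL]
  calc ∑ w₁ ∈ lists V (2 * m), Lv m J α ν w₁ * D.ltens X m P (D.s1 α) w₁ w
      = ∑ w₁ ∈ lists V (2 * m), ∑ δ, ∑ ζ, D.form X c m bp J α ν δ ζ *
          (D.Rv X c m bp J δ ζ w₁ * D.ltens X m P (D.s1 α) w₁ w) := by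
        refine Finset.sum_congr rfl fun w₁ hw₁ => ?_
        rw [hexp w₁ hα hw₁, Finset.sum_mul]
        refine Finset.sum_congr rfl fun δ _ => ?_
        rw [Finset.sum_mul]
        exact Finset.sum_congr rfl fun ζ _ => by ring
    _ = ∑ δ, ∑ ζ, D.form X c m bp J α ν δ ζ *
          ∑ w₁ ∈ lists V (2 * m), D.Rv X c m bp J δ ζ w₁ *
            D.ltens X m P (D.s1 α) w₁ w := by
        rw [Finset.sum_comm]
        refine Finset.sum_congr rfl fun δ _ => ?_
        rw [Finset.sum_comm]
        exact Finset.sum_congr rfl fun ζ _ => by rw [Finset.mul_sum]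
    _ = ∑ δ, ∑ ζ, D.form X c m bp J α ν δ ζ * D.RR X c m bp J β δ ζ w := by
        refine Finset.sum_congr rfl fun δ _ => Finset.sum_congr rfl fun ζ _ => ?_
        by_cases hz : D.form X c m bp J α ν δ ζ = 0
        · rw [hz, zero_mul, zero_mul]
        · have hcp : D.cp α ν δ ζ := by
            by_contra hn
            exact hz (by simp [FD.form, hn])
          rw [hR δ ζ hcp.2.2.1.symm]

end Pool.Agent.helper93.TV
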